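import Pool.Agent.Helper10.RC.Basic

/-!
# MP_b55b7c_an: packet LowB
-/

open scoped ENNReal NNReal InnerProductSpace ComplexOrder
open Filter Topology

attribute [-instance] CStarMatrix.instAlgebra CStarMatrix.instModule CStarMatrix.instSMul
  CStarMatrix.instMulAction CStarMatrix.instDistribMulAction

set_option linter.unusedSectionVars false

noncomputable section
namespace RC
universe u

section
variable {B : Type u} [CStarAlgebra B] [PartialOrder B] [StarOrderedRing B]

theorem one1_nonneg96 {x : B} (hx : 0 ≤ x) : 0 ≤ one1 x := by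
  obtain ⟨y, hy⟩ := CStarAlgebra.nonneg_iff_eq_mul_star_self.mp hx
  have h : one1 x = one1 y * (one1 y).conjTranspose := by
    ext i j
    rw [CStarMatrix.mul_apply, hy]
    simp [one1]
  rw [h]
  exact cm_mul_conj_nonneg _

theorem one1_add (x y : B) : one1 (x + y) = one1 x + one1 y := rfl

theorem one1_sub (x y : B) : one1 (x - y) = one1 x - one1 y := rfl

theorem one1_smul (c : ℝ) (x : B) : one1 (c • x) = c • one1 x := rfl

theorem one1_one : one1 (1 : B) = 1 := by
  ext i j
  simp [one1]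

theorem one1_mono {x y : B} (h : x ≤ y) : one1 x ≤ one1 y := by
  have := one1_nonneg96 (sub_nonneg.2 h)
  rw [one1_sub] at this
  exact sub_nonneg.1 this

theorem conj_smul_le {L : ℕ} (f : B) (s : Fin L → B) (ε K : ℝ) (hf : 0 ≤ f) (hε : 0 ≤ ε)
    (hK : ‖∑ i, s i * star (s i)‖ ≤ K) :
    ∑ i, s i * f * star (s i) ≤ ∑ i, s i * cut f ε * star (s i) + (ε * K) • (1 : B) := by
  have h1 : f ≤ cut f ε + ε • (1 : B) := le_cut_add hf.isSelfAdjoint ε
  have h2 : ∀ i, s i * f * star (s i) ≤ s i * cut f ε * star (s i) + ε • (s i * star (s i)) := by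
    intro i
    have := star_right_conjugate_le_conjugate h1 (s i)
    rw [mul_add, add_mul, mul_smul_comm, mul_one, smul_mul_assoc] at this
    exact this
  have h3 : ∑ i, s i * f * star (s i) ≤
      ∑ i, (s i * cut f ε * star (s i) + ε • (s i * star (s i))) :=
    Finset.sum_le_sum fun i _ => h2 i
  rw [Finset.sum_add_distrib, ← Finset.smul_sum] at h3
  refine h3.trans (add_le_add le_rfl ?_)
  rw [mul_smul]
  refine smul_le_smul_of_nonneg_left ?_ hε
  have hsa : IsSelfAdjoint (∑ i, s i * star (s i)) :=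
    (Finset.sum_nonneg fun i _ => mul_star_self_nonneg (s i)).isSelfAdjoint
  have h4 := hsa.le_algebraMap_norm_self
  rw [Algebra.algebraMap_eq_smul_one] at h4
  refine h4.trans ?_
  exact smul_le_smul_of_nonneg_right hK zero_le_one

/-- the row `(s_1, ..., s_L, 1)` -/
def rowR {L : ℕ} (s : Fin L → B) : CStarMatrix Unit (Fin L ⊕ Unit) B :=
  CStarMatrix.ofMatrix fun _ k => Sum.elim s (fun _ => 1) k

theorem rowR_mul {L : ℕ} (s : Fin L → B) (g c : B) :
    rowR s * dsum (dg (Fin L) g) (one1 c) * (rowR s).conjTranspose =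
      one1 (∑ i, s i * g * star (s i) + c) := by
  have h1 : rowR s * dsum (dg (Fin L) g) (one1 c) =
      CStarMatrix.ofMatrix fun _ k => Sum.elim (fun i => s i * g) (fun _ => c) k := by
    ext i k
    rw [CStarMatrix.mul_apply, Fintype.sum_sum_type]
    rcases k with k | k
    · simp [rowR, dsum, dg, Matrix.diagonal_apply]
    · simp [rowR, dsum, dg, one1]
  rw [h1]
  ext i j
  rw [CStarMatrix.mul_apply, Fintype.sum_sum_type]
  simp [rowR, one1]

theorem cut_one' {ι : Type} [Fintype ι] [DecidableEq ι] (δ : ℝ) (hδ : δ ≤ 1) :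
    cut (1 : CStarMatrix ι ι B) δ = (1 - δ) • (1 : CStarMatrix ι ι B) := by
  unfold cut
  have h := cfc_algebraMap (R := ℝ) (A := CStarMatrix ι ι B) (1 : ℝ)
    (fun t : ℝ => max (t - δ) 0)
  rw [map_one, Algebra.algebraMap_eq_smul_one, max_eq_left (by linarith)] at h
  exact h

end

theorem lowBP (h1 : QMonoP.{u}) (h2 : QOneP.{u}) (h3 : QDsumP.{u}) (h4 : QDgP.{u})
    (h5 : CuLeAddP.{u}) : LowBP.{u} := by
  intro B _ _ _ L f s c δ hf hc hδ hle
  set K : ℝ := ‖∑ i, s i * star (s i)‖ + 1 with hK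
  have hK1 : 1 ≤ K := by
    have := norm_nonneg (∑ i, s i * star (s i))
    rw [hK]; linarith
  have hK0 : 0 < K := by linarith
  refine ⟨(1 - δ) / (2 * K), div_pos (by linarith) (by linarith), fun ε hε hε0 ω => ?_⟩
  have hεK : ε * K ≤ (1 - δ) / 2 := by
    rw [le_div_iff₀ (by linarith)] at hε0
    linarith
  set δ' : ℝ := max (ε * K + δ) 0 with hδ'
  have hδ'0 : 0 ≤ δ' := le_max_right _ _
  have hδ'1 : δ' < 1 := max_lt (by linarith) one_pos
  set g : B := cut f ε with hg
  have hg0 : 0 ≤ g := cut_nonneg f ε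
  set X : B := ∑ i, s i * g * star (s i) + c with hX
  have hsum := conj_smul_le f s ε K hf hε.le (by rw [hK]; linarith)
  have hle2 : (1 : B) ≤ X + δ' • (1 : B) := by
    have e1 : ∑ i, s i * f * star (s i) + c + δ • (1 : B) ≤
        (∑ i, s i * g * star (s i) + (ε * K) • (1 : B)) + c + δ • (1 : B) :=
      add_le_add (add_le_add hsum le_rfl) le_rfl
    have e2 : (∑ i, s i * g * star (s i) + (ε * K) • (1 : B)) + c + δ • (1 : B) =
        X + (ε * K + δ) • (1 : B) := by
      rw [hX, add_smul]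
      abel
    have e3 : (ε * K + δ) • (1 : B) ≤ δ' • (1 : B) :=
      smul_le_smul_of_nonneg_right (le_max_left _ _) zero_le_one
    exact hle.trans (e1.trans (e2.le.trans (add_le_add le_rfl e3)))
  have hX0 : 0 ≤ X := by
    rw [hX]
    exact add_nonneg (Finset.sum_nonneg fun i _ => star_right_conjugate_nonneg hg0 _) hc
  have hle3 : (1 : CStarMatrix Unit Unit B) ≤ one1 X + δ' • (1 : CStarMatrix Unit Unit B) := by
    have := one1_mono hle2
    rw [one1_one, one1_add, one1_smul, one1_one] at this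
    exact this
  have hCu := h5 B Unit (1 : CStarMatrix Unit Unit B) (one1 X) δ' hδ'0 zero_le_one
    (one1_nonneg96 hX0) hle3
  rw [cut_one' δ' hδ'1.le] at hCu
  obtain ⟨hdg0, hdg⟩ := h4 B ω (Fin L) g hg0
  obtain ⟨hD0, hD⟩ := h3 B ω (Fin L) Unit (dg (Fin L) g) (one1 c) hdg0 (one1_nonneg96 hc)
  have hC2 : Cu (1 : CStarMatrix Unit Unit B) (dsum (dg (Fin L) g) (one1 c)) := by
    intro η hη
    have h1δ : 0 < 1 - δ' := by linarith
    obtain ⟨w, hw⟩ := hCu (η * (1 - δ')) (by positivity)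
    refine ⟨(Real.sqrt (1 - δ'))⁻¹ • (w * rowR s), ?_⟩
    have e1 : (Real.sqrt (1 - δ'))⁻¹ • (w * rowR s) * dsum (dg (Fin L) g) (one1 c) *
        ((Real.sqrt (1 - δ'))⁻¹ • (w * rowR s)).conjTranspose - 1 =
        (1 - δ')⁻¹ • (w * one1 X * w.conjTranspose -
          (1 - δ') • (1 : CStarMatrix Unit Unit B)) := by
      rw [cm_conj_rsmul, cm_rsmul_mul, cm_rsmul_mul, cm_mul_rsmul, smul_smul,
        ← mul_inv, Real.mul_self_sqrt h1δ.le, smul_sub, smul_smul, inv_mul_cancel₀ h1δ.ne',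
        one_smul, cm_conj_mul, hX, ← rowR_mul]
      simp only [cm_assoc]
    rw [e1, norm_smul, Real.norm_eq_abs, abs_of_pos (by positivity)]
    calc (1 - δ')⁻¹ * _ < (1 - δ')⁻¹ * (η * (1 - δ')) := by gcongr
      _ = η := by field_simp
  have hfin := h1 B ω Unit (Fin L ⊕ Unit) 1 _ zero_le_one hD0 hC2
  rw [(h2 B ω Unit).2, hD, hdg] at hfin
  simpa using hfin

end RC
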