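import Pool.Agent.Helper10.RC.Basic

/-!
# MP_b55b7c_an: packet QSwap
-/

open scoped ENNReal NNReal InnerProductSpace ComplexOrder
open Filter Topology

attribute [-instance] CStarMatrix.instAlgebra CStarMatrix.instModule CStarMatrix.instSMul
  CStarMatrix.instMulAction CStarMatrix.instDistribMulAction

noncomputable section
namespace RC
universe u

theorem qswap_aux {D : Type u} [CStarAlgebra D] [PartialOrder D] [StarOrderedRing D] (M : D)
    (hM : 0 ≤ M) (k F : ℝ → ℝ) (hk : Continuous k) (h : ∀ t, k t * t * k t = F t) :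
    cfc k M * M * cfc k M = cfc F M := by
  have hsa : IsSelfAdjoint M := hM.isSelfAdjoint
  have h1 : cfc k M * M * cfc k M = cfc (fun t => k t * t * k t) M := by
    rw [cfc_mul (fun t => k t * t) k M (by fun_prop) (by fun_prop),
      cfc_mul k (fun t => t) M (by fun_prop) (by fun_prop), cfc_id' ℝ M]
  rw [h1]
  congr 1
  funext t
  exact h t

theorem qSwapP (h : IntP.{u}) : QSwapP.{u} := by
  intro A _ _ _ σ ι κ _ _ _ _ L F δ hF hδ hF0 hFp
  set k : ℝ → ℝ := fun t => Real.sqrt (F t / max t δ) with hk
  have hmax : ∀ t, 0 < max t δ := fun t => lt_of_lt_of_le hδ (le_max_right _ _)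
  have hkc : Continuous k := by
    refine Real.continuous_sqrt.comp (hF.div (by fun_prop) fun t => (hmax t).ne')
  have hkF : ∀ t, k t * t * k t = F t := by
    intro t
    have h1 : k t * k t = F t / max t δ := by
      rw [hk]
      exact Real.mul_self_sqrt (div_nonneg (hFp t) (hmax t).le)
    have h2 : k t * t * k t = (F t / max t δ) * t := by rw [← h1]; ring
    rw [h2]
    rcases le_or_gt t δ with ht | ht
    · rw [hF0 t ht]; simp
    · rw [max_eq_left ht.le]
      field_simp [(hδ.trans ht).ne']
  have hI := h A ι κ L k hkc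
  have n1 := cm_conj_mul_nonneg L
  have n2 := cm_mul_conj_nonneg L
  have s1 : (cfc k (L.conjTranspose * L)).conjTranspose = cfc k (L.conjTranspose * L) := by
    rw [cm_star_eq]
    exact IsSelfAdjoint.cfc
  have s2 : (cfc k (L * L.conjTranspose)).conjTranspose = cfc k (L * L.conjTranspose) := by
    rw [cm_star_eq]
    exact IsSelfAdjoint.cfc
  have ht := σ.trace ι κ (L * cfc k (L.conjTranspose * L))
  have e1 : (L * cfc k (L.conjTranspose * L)).conjTranspose * (L * cfc k (L.conjTranspose * L)) =
      cfc F (L.conjTranspose * L) := by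
    rw [cm_conj_mul, s1]
    rw [← qswap_aux _ n1 k F hkc hkF]
    simp only [cm_assoc]
  have e2 : (L * cfc k (L.conjTranspose * L)) * (L * cfc k (L.conjTranspose * L)).conjTranspose =
      cfc F (L * L.conjTranspose) := by
    rw [hI, cm_conj_mul, s2]
    rw [← qswap_aux _ n2 k F hkc hkF]
    simp only [cm_assoc]
  rw [e1, e2] at ht
  exact ht

end RC
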